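import Pool.Agent.Q74.PD.Stm9

/-!
# Project PD, job Sup: typical words contribute at most `6 n ^ 3 L` at every point
-/

set_option autoImplicit false

namespace Pool.Agent.Q129.PD

open Finset
open Pool.Agent.H320R2.PD
open Pool.Agent.Q74.PD (S_Sup)

theorem Wo_bound {L : ℝ} (u : List ℕ)
    (h : ∀ i, 1 ≤ i → i ≤ u.length → (3 : ℝ) ^ i ≤ L * 2 ^ ((u.take i).sum)) :
    3 * (Wo u : ℝ) ≤ u.length * (L * 2 ^ u.sum) := by
  induction u using List.reverseRecOn with
  | nil => simp [Wo]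
  | append_singleton u e ih =>
    have h1 : ∀ i, 1 ≤ i → i ≤ u.length → (3 : ℝ) ^ i ≤ L * 2 ^ ((u.take i).sum) := by
      intro i hi hi'
      have := h i hi (by simp; omega)
      rwa [List.take_append_of_le_length hi'] at this
    have h2 := ih h1
    have h3 := h (u.length + 1) (by omega) (by simp)
    have h4 : (u ++ [e]).take (u.length + 1) = u ++ [e] := List.take_of_length_le (by simp)
    rw [h4] at h3
    rw [Wo_snoc]
    simp only [List.length_append, List.length_singleton, List.sum_append,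
      List.sum_singleton] at h3 ⊢
    push_cast
    rw [pow_add] at h3 ⊢
    have h5 : (2 : ℝ) ^ e * (3 * Wo u) ≤ 2 ^ e * (u.length * (L * 2 ^ u.sum)) :=
      mul_le_mul_of_nonneg_left h2 (by positivity)
    have h6 : (3 : ℝ) ^ u.length * 3 ^ 1 = 3 * 3 ^ u.length := by ring
    rw [h6] at h3
    rw [pow_add] at h3
    linarith

theorem geo_tail (y : ℝ) (hy : 0 < y) (s : Finset ℕ) (hs : ∀ e ∈ s, y ≤ 2 ^ e) :
    ∑ e ∈ s, (1 / 2 : ℝ) ^ e ≤ 2 / y := by
  classical
  obtain ⟨e1, he1⟩ := pow_unbounded_of_one_lt y (by norm_num : (1 : ℝ) < 2)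
  have hex : ∃ e : ℕ, y ≤ 2 ^ e := ⟨e1, he1.le⟩
  obtain ⟨e0, h0, h1⟩ : ∃ e0 : ℕ, y ≤ 2 ^ e0 ∧ ∀ e ∈ s, e0 ≤ e :=
    ⟨Nat.find hex, Nat.find_spec hex, fun e he => Nat.find_min' hex (hs e he)⟩
  have h2 : ∀ M : ℕ, ∑ e ∈ Ico e0 (e0 + M), (1 / 2 : ℝ) ^ e ≤
      2 * (1 / 2) ^ e0 - 2 * (1 / 2) ^ (e0 + M) := by
    intro M
    induction M with
    | zero => simp
    | succ M ih =>
      rw [← add_assoc, sum_Ico_succ_top (by omega)]
      have : (1 / 2 : ℝ) ^ (e0 + M + 1) = (1 / 2) ^ (e0 + M) * (1 / 2) := pow_succ _ _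
      linarith
  have h3 : s ⊆ Ico e0 (e0 + (s.sup id + 1)) := by
    intro e he
    rw [mem_Ico]
    have := Finset.le_sup (f := id) he
    simp only [id] at this
    exact ⟨h1 e he, by omega⟩
  calc ∑ e ∈ s, (1 / 2 : ℝ) ^ e ≤ ∑ e ∈ Ico e0 (e0 + (s.sup id + 1)), (1 / 2 : ℝ) ^ e :=
        sum_le_sum_of_subset_of_nonneg h3 (fun _ _ _ => by positivity)
    _ ≤ 2 * (1 / 2) ^ e0 - 2 * (1 / 2) ^ (e0 + (s.sup id + 1)) := h2 _
    _ ≤ 2 * (1 / 2) ^ e0 := by
        have : (0 : ℝ) < (1 / 2) ^ (e0 + (s.sup id + 1)) := by positivity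
        linarith
    _ ≤ 2 / y := by
        rw [one_div_pow, mul_one_div]
        exact div_le_div_of_nonneg_left (by norm_num) hy h0

theorem sum_unique_le {α : Type*} (s : Finset α) (p : α → Prop) [DecidablePred p] (c : ℝ)
    (hc : 0 ≤ c) (h : ∀ u ∈ s, ∀ u' ∈ s, p u → p u' → u = u') :
    ∑ u ∈ s, (if p u then c else 0) ≤ c := by
  rw [← sum_filter, sum_const, nsmul_eq_mul]
  have h1 : (s.filter p).card ≤ 1 := card_le_one.2 (fun u hu u' hu' =>
    h u (mem_filter.1 hu).1 u' (mem_filter.1 hu').1 (mem_filter.1 hu).2 (mem_filter.1 hu').2)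
  have h2 : ((s.filter p).card : ℝ) ≤ 1 := by exact_mod_cast h1
  calc ((s.filter p).card : ℝ) * c ≤ 1 * c := mul_le_mul_of_nonneg_right h2 hc
    _ = c := one_mul c

/-- the word is valid and typical, and its size passes `log_2 Θ` at the letter `k + 1` -/
def CC (d a : ℤ) (n : ℕ) (L Θ : ℝ) (k l : ℕ) (w : List ℕ) : Prop :=
  ((3 : ℤ) ^ n ∣ 2 ^ w.sum * a - d * Wo w ∧
    ∀ i ∈ Icc 1 n, (3 : ℝ) ^ i ≤ L * 2 ^ (w.take i).sum) ∧
  (w.take k).sum = l ∧ (2 : ℝ) ^ l < Θ ∧ Θ ≤ 2 ^ ((w.take (k + 1)).sum)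

theorem take_k (u v : List ℕ) : (u ++ v).take u.length = u := by
  rw [List.take_append_of_le_length le_rfl, List.take_length]

theorem take_k1 (u : List ℕ) (e : ℕ) (v : List ℕ) :
    (u ++ e :: v).take (u.length + 1) = u ++ [e] := by
  have h : u ++ e :: v = (u ++ [e]) ++ v := by simp
  rw [h]
  have h1 : u.length + 1 = (u ++ [e]).length := by simp
  rw [h1]
  exact take_k _ _

theorem CC_unique {d a : ℤ} (hd : IsCoprime d 3) {n k l e : ℕ} {L Θ : ℝ} (hL : 0 < L)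
    (hn1 : 1 ≤ n) (hn : (n : ℝ) * L * Θ = 3 ^ n) {u u' v : List ℕ} (hu : ∀ x ∈ u, 1 ≤ x)
    (hu' : ∀ x ∈ u', 1 ≤ x) (hk : u.length = k) (hk' : u'.length = k) (hkn : k ≤ n)
    (h : CC d a n L Θ k l (u ++ e :: v)) (h' : CC d a n L Θ k l (u' ++ e :: v)) : u = u' := by
  have key : ∀ u : List ℕ, u.length = k → CC d a n L Θ k l (u ++ e :: v) →
      u.sum = l ∧ Wo u < 3 ^ n := by
    intro u hk h
    obtain ⟨⟨-, h2⟩, h3, h4, -⟩ := h
    have h5 : u.sum = l := by
      rw [← hk, take_k] at h3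
      exact h3
    refine ⟨h5, ?_⟩
    have h6 : ∀ i, 1 ≤ i → i ≤ u.length → (3 : ℝ) ^ i ≤ L * 2 ^ ((u.take i).sum) := by
      intro i hi hi'
      have := h2 i (mem_Icc.2 ⟨hi, by omega⟩)
      rwa [List.take_append_of_le_length hi'] at this
    have h7 := Wo_bound u h6
    rw [h5] at h7
    have hnR : (1 : ℝ) ≤ n := by exact_mod_cast hn1
    have hkR : (u.length : ℝ) ≤ n := by
      rw [hk]
      exact_mod_cast hkn
    have h8 : (u.length : ℝ) * (L * 2 ^ l) ≤ n * (L * 2 ^ l) :=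
      mul_le_mul_of_nonneg_right hkR (by positivity)
    have h9 : (n : ℝ) * (L * 2 ^ l) < n * (L * Θ) :=
      mul_lt_mul_of_pos_left (mul_lt_mul_of_pos_left h4 hL) (by linarith)
    have h10 : (n : ℝ) * (L * Θ) = 3 ^ n := by rw [← hn]; ring
    have h11 : (0 : ℝ) ≤ (Wo u : ℝ) := Nat.cast_nonneg _
    have h12 : (Wo u : ℝ) < (3 : ℝ) ^ n := by linarith
    exact_mod_cast h12
  obtain ⟨hs, hW⟩ := key u hk h
  obtain ⟨hs', hW'⟩ := key u' hk' h'
  apply Wo_inj hu hu' (hk.trans hk'.symm) (hs.trans hs'.symm)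
  have h1 := h.1.1
  have h1' := h'.1.1
  rw [Wo_append, List.sum_append, hs, hk] at h1
  rw [Wo_append, List.sum_append, hs', hk'] at h1'
  have h2 := dvd_sub h1' h1
  push_cast at h2
  have h3 : (2 : ℤ) ^ (l + (e :: v).sum) * a - d * (2 ^ (e :: v).sum * Wo u' + 3 ^ k * Wo (e :: v)) -
      (2 ^ (l + (e :: v).sum) * a - d * (2 ^ (e :: v).sum * Wo u + 3 ^ k * Wo (e :: v))) =
      d * 2 ^ (e :: v).sum * ((Wo u : ℤ) - Wo u') := by ring
  rw [h3] at h2
  have hc : IsCoprime ((3 : ℤ) ^ n) (d * 2 ^ (e :: v).sum) := by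
    apply IsCoprime.pow_left
    apply IsCoprime.mul_right hd.symm
    apply IsCoprime.pow_right
    exact ⟨1, -1, by norm_num⟩
  have h4 := hc.dvd_of_dvd_mul_left h2
  have h5 : ((Wo u : ℤ) - Wo u') = 0 := by
    apply Int.eq_zero_of_abs_lt_dvd h4
    have hW1 : (Wo u : ℤ) < 3 ^ n := by exact_mod_cast hW
    have hW2 : (Wo u' : ℤ) < 3 ^ n := by exact_mod_cast hW'
    rw [abs_lt]
    constructor <;> omega
  omega

open Classical in
theorem part {d a : ℤ} (hd : IsCoprime d 3) (cap k m l : ℕ) {L Θ : ℝ} (hL : 0 < L) (hΘ : 0 < Θ)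
    (hn : ((k + (m + 1) : ℕ) : ℝ) * L * Θ = 3 ^ (k + (m + 1))) :
    ∑ w ∈ FW cap (k + (m + 1)), (if CC d a (k + (m + 1)) L Θ k l w then wwt w else 0) ≤
      2 / Θ := by
  have e1 : ∑ w ∈ FW cap (k + (m + 1)), (if CC d a (k + (m + 1)) L Θ k l w then wwt w else 0) =
      ∑ e ∈ Icc 1 cap, ∑ v ∈ FW cap m, ∑ u ∈ FW cap k,
        (if CC d a (k + (m + 1)) L Θ k l (u ++ e :: v) then wwt (u ++ e :: v) else 0) := by
    rw [sum_FW_add]
    rw [sum_congr rfl (fun u _ => sum_FW_succ _)]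
    rw [sum_comm]
    refine sum_congr rfl fun e _ => ?_
    rw [sum_comm]
  rw [e1]
  have h1 : ∀ e ∈ Icc 1 cap, ∀ v ∈ FW cap m, ∑ u ∈ FW cap k,
      (if CC d a (k + (m + 1)) L Θ k l (u ++ e :: v) then wwt (u ++ e :: v) else 0) ≤
        (if Θ ≤ 2 ^ (l + e) then (1 / 2 : ℝ) ^ l * ((1 / 2 : ℝ) ^ e * wwt v) else 0) := by
    intro e _ v _
    have hw : ∀ u ∈ FW cap k, CC d a (k + (m + 1)) L Θ k l (u ++ e :: v) →
        wwt (u ++ e :: v) = (1 / 2 : ℝ) ^ l * ((1 / 2 : ℝ) ^ e * wwt v) ∧ Θ ≤ 2 ^ (l + e) := by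
      intro u hu h
      obtain ⟨-, h3, -, h5⟩ := h
      have hk := (mem_FW.1 hu).1
      rw [← hk, take_k] at h3
      rw [← hk, take_k1] at h5
      simp only [List.sum_append, List.sum_singleton, h3] at h5
      refine ⟨?_, h5⟩
      unfold wwt
      rw [List.sum_append, List.sum_cons, h3, pow_add, pow_add]
    split_ifs with hΘe
    · have e2 : ∑ u ∈ FW cap k,
          (if CC d a (k + (m + 1)) L Θ k l (u ++ e :: v) then wwt (u ++ e :: v) else 0) =
          ∑ u ∈ FW cap k, (if CC d a (k + (m + 1)) L Θ k l (u ++ e :: v) then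
            (1 / 2 : ℝ) ^ l * ((1 / 2 : ℝ) ^ e * wwt v) else 0) := by
        refine sum_congr rfl fun u hu => ?_
        split_ifs with h
        · exact (hw u hu h).1
        · rfl
      rw [e2]
      refine sum_unique_le _ _ _ ?_ ?_
      · have := wwt_nonneg v
        positivity
      · intro u hu u' hu' h h'
        exact CC_unique hd hL (by omega) hn (fun x hx => ((mem_FW.1 hu).2 x hx).1)
          (fun x hx => ((mem_FW.1 hu').2 x hx).1) (mem_FW.1 hu).1 (mem_FW.1 hu').1 (by omega) h h'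
    · refine le_of_eq (sum_eq_zero fun u hu => ?_)
      rw [if_neg]
      intro h
      exact hΘe (hw u hu h).2
  refine (sum_le_sum fun e he => sum_le_sum fun v hv => h1 e he v hv).trans ?_
  have h2 : ∀ e ∈ Icc 1 cap, ∑ v ∈ FW cap m,
      (if Θ ≤ 2 ^ (l + e) then (1 / 2 : ℝ) ^ l * ((1 / 2 : ℝ) ^ e * wwt v) else 0) ≤
      (if Θ ≤ 2 ^ (l + e) then (1 / 2 : ℝ) ^ l * (1 / 2 : ℝ) ^ e else 0) := by
    intro e _
    split_ifs with h
    · have h3 : ∑ v ∈ FW cap m, (1 / 2 : ℝ) ^ l * ((1 / 2 : ℝ) ^ e * wwt v) =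
          (1 / 2 : ℝ) ^ l * (1 / 2 : ℝ) ^ e * ∑ v ∈ FW cap m, wwt v := by
        rw [mul_sum]
        exact sum_congr rfl fun v _ => by ring
      rw [h3]
      calc (1 / 2 : ℝ) ^ l * (1 / 2 : ℝ) ^ e * ∑ v ∈ FW cap m, wwt v ≤
            (1 / 2 : ℝ) ^ l * (1 / 2 : ℝ) ^ e * 1 :=
            mul_le_mul_of_nonneg_left (sum_wwt_le cap m) (by positivity)
        _ = _ := mul_one _
    · exact le_of_eq (sum_eq_zero fun v _ => rfl)
  refine (sum_le_sum h2).trans ?_
  rw [← sum_filter, ← mul_sum]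
  have hy : 0 < Θ / 2 ^ l := by positivity
  have h4 := geo_tail (Θ / 2 ^ l) hy ((Icc 1 cap).filter fun e => Θ ≤ 2 ^ (l + e)) (by
    intro e he
    have := (mem_filter.1 he).2
    rw [div_le_iff₀ (by positivity), ← pow_add, add_comm e l]
    exact this)
  calc (1 / 2 : ℝ) ^ l * ∑ e ∈ (Icc 1 cap).filter (fun e => Θ ≤ 2 ^ (l + e)), (1 / 2 : ℝ) ^ e ≤
        (1 / 2 : ℝ) ^ l * (2 / (Θ / 2 ^ l)) := mul_le_mul_of_nonneg_left h4 (by positivity)
    _ = 2 / Θ := by
        rw [one_div_pow]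
        field_simp

theorem sup_aux (d : ℤ) (hd : IsCoprime d 3) (cap n : ℕ) (hn1 : 1 ≤ n) (L : ℝ) (hL : 1 ≤ L)
    (a : ℤ) (P : List ℕ → Prop) (D : DecidablePred P)
    (hP : ∀ w, P w → (3 : ℤ) ^ n ∣ 2 ^ w.sum * a - d * Wo w ∧
      ∀ i ∈ Icc 1 n, (3 : ℝ) ^ i ≤ L * 2 ^ (w.take i).sum) :
    ∑ w ∈ FW cap n, (if P w then (3 : ℝ) ^ n * wwt w else 0) ≤ 6 * (n : ℝ) ^ 3 * L := by
  classical
  have hnR : (1 : ℝ) ≤ n := by exact_mod_cast hn1
  have hL0 : 0 < L := by linarith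
  have hn0 : (0 : ℝ) < n := by linarith
  set Θ : ℝ := 3 ^ n / (n * L) with hΘ
  have hΘ0 : 0 < Θ := by positivity
  have hnL : (n : ℝ) * L * Θ = 3 ^ n := by
    rw [hΘ]
    field_simp
  have hn3 : (n : ℝ) ≤ (n : ℝ) ^ 3 := le_self_pow₀ hnR (by norm_num)
  by_cases hΘ1 : Θ ≤ 1
  · calc ∑ w ∈ FW cap n, (if P w then (3 : ℝ) ^ n * wwt w else 0)
        ≤ ∑ w ∈ FW cap n, (3 : ℝ) ^ n * wwt w := by
          refine sum_le_sum fun w _ => ?_
          have := wwt_nonneg w
          split_ifs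
          · exact le_rfl
          · positivity
      _ = (3 : ℝ) ^ n * ∑ w ∈ FW cap n, wwt w := (mul_sum _ _ _).symm
      _ ≤ (3 : ℝ) ^ n * 1 := mul_le_mul_of_nonneg_left (sum_wwt_le cap n) (by positivity)
      _ = (n : ℝ) * L * Θ := by rw [hnL, mul_one]
      _ ≤ (n : ℝ) * L * 1 := mul_le_mul_of_nonneg_left hΘ1 (by positivity)
      _ ≤ 6 * (n : ℝ) ^ 3 * L := by
          have h1 : (n : ℝ) * L ≤ (n : ℝ) ^ 3 * L := mul_le_mul_of_nonneg_right hn3 hL0.le
          have h2 : 0 ≤ (n : ℝ) ^ 3 * L := by positivity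
          linarith
  · push Not at hΘ1
    have hpt : ∀ w ∈ FW cap n, (if P w then (3 : ℝ) ^ n * wwt w else 0) ≤
        ∑ k ∈ range n, ∑ l ∈ range (2 * n),
          (3 : ℝ) ^ n * (if CC d a n L Θ k l w then wwt w else 0) := by
      intro w hw
      have hwn := wwt_nonneg w
      have hnn : ∀ k l : ℕ, 0 ≤ (3 : ℝ) ^ n * (if CC d a n L Θ k l w then wwt w else 0) := by
        intro k l
        split_ifs
        · positivity
        · simp
      split_ifs with h'
      · have h := hP w h'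
        have hlast : Θ ≤ 2 ^ (w.take n).sum := by
          have h1 := h.2 n (mem_Icc.2 ⟨hn1, le_rfl⟩)
          rw [← hnL] at h1
          have h2 : L * (Θ * n) ≤ L * 2 ^ (w.take n).sum := by
            refine le_trans (le_of_eq ?_) h1
            ring
          have h3 := le_of_mul_le_mul_left h2 hL0
          have h4 : Θ * 1 ≤ Θ * n := mul_le_mul_of_nonneg_left hnR hΘ0.le
          linarith
        have hex : ∃ i : ℕ, Θ ≤ 2 ^ (w.take i).sum := ⟨n, hlast⟩
        obtain ⟨j, hj1, hj2, hj3⟩ : ∃ j : ℕ, Θ ≤ 2 ^ (w.take j).sum ∧ j ≤ n ∧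
            ∀ i < j, ¬ Θ ≤ 2 ^ (w.take i).sum :=
          ⟨Nat.find hex, Nat.find_spec hex, Nat.find_min' hex hlast, fun i hi =>
            Nat.find_min hex hi⟩
        have hj0 : j ≠ 0 := by
          rintro rfl
          simp at hj1
          linarith
        obtain ⟨k, rfl⟩ : ∃ k, j = k + 1 := ⟨j - 1, by omega⟩
        have hk := hj3 k (by omega)
        push Not at hk
        have hl : (w.take k).sum < 2 * n := by
          have h1 : (2 : ℝ) ^ (w.take k).sum < 2 ^ (2 * n) := by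
            refine hk.trans_le ?_
            have h2 : Θ ≤ 3 ^ n := by
              rw [hΘ]
              apply div_le_self (by positivity)
              nlinarith
            have h3 : (3 : ℝ) ^ n ≤ 2 ^ (2 * n) := by
              rw [pow_mul]
              exact pow_le_pow_left₀ (by norm_num) (by norm_num) n
            exact h2.trans h3
          exact (pow_lt_pow_iff_right₀ (by norm_num : (1 : ℝ) < 2)).1 h1
        have hCC : CC d a n L Θ k (w.take k).sum w := ⟨h, rfl, hk, hj1⟩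
        calc (3 : ℝ) ^ n * wwt w = (3 : ℝ) ^ n *
              (if CC d a n L Θ k (w.take k).sum w then wwt w else 0) := by rw [if_pos hCC]
          _ ≤ ∑ l ∈ range (2 * n), (3 : ℝ) ^ n * (if CC d a n L Θ k l w then wwt w else 0) :=
              single_le_sum (f := fun l => (3 : ℝ) ^ n *
                (if CC d a n L Θ k l w then wwt w else 0)) (fun l _ => hnn k l)
                (mem_range.2 hl)
          _ ≤ _ := single_le_sum (f := fun k => ∑ l ∈ range (2 * n), (3 : ℝ) ^ n *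
                (if CC d a n L Θ k l w then wwt w else 0))
                (fun k _ => sum_nonneg fun l _ => hnn k l) (mem_range.2 (by omega))
      · exact sum_nonneg fun k _ => sum_nonneg fun l _ => hnn k l
    refine (sum_le_sum hpt).trans ?_
    rw [sum_comm]
    have hk : ∀ k ∈ range n, ∑ w ∈ FW cap n, ∑ l ∈ range (2 * n),
        (3 : ℝ) ^ n * (if CC d a n L Θ k l w then wwt w else 0) ≤
          (2 * n : ℕ) * ((3 : ℝ) ^ n * (2 / Θ)) := by
      intro k hk
      rw [mem_range] at hk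
      rw [sum_comm]
      have h1 : ∀ l ∈ range (2 * n), ∑ w ∈ FW cap n,
          (3 : ℝ) ^ n * (if CC d a n L Θ k l w then wwt w else 0) ≤ (3 : ℝ) ^ n * (2 / Θ) := by
        intro l _
        rw [← mul_sum]
        refine mul_le_mul_of_nonneg_left ?_ (by positivity)
        obtain ⟨m, hm⟩ : ∃ m, n = k + (m + 1) := ⟨n - k - 1, by omega⟩
        have h2 := part (a := a) hd cap k m l hL0 hΘ0 (by rw [← hm]; exact hnL)
        rw [← hm] at h2
        exact h2
      refine (sum_le_sum h1).trans (le_of_eq ?_)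
      rw [sum_const, card_range, nsmul_eq_mul]
    refine (sum_le_sum hk).trans ?_
    rw [sum_const, card_range, nsmul_eq_mul]
    have h5 : (n : ℝ) * ((2 * n : ℕ) * ((3 : ℝ) ^ n * (2 / Θ))) = 4 * (n : ℝ) ^ 3 * L := by
      rw [← hnL]
      push_cast
      field_simp
      ring
    rw [h5]
    have h6 : 0 ≤ (n : ℝ) ^ 3 * L := by positivity
    linarith

theorem sup : S_Sup := fun d hd cap n hn1 L hL a =>
  sup_aux d hd cap n hn1 L hL a _ _ fun _ h => h

end Pool.Agent.Q129.PD
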