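import Pool.Agent.Q216.PD.Stm2
import Pool.Agent.Y93.EL.Stew

/-!
# Project PD: UNI (uniform linear growth of the displacement)
-/

set_option autoImplicit false

universe u v

open Metric Set Filter Topology
open Pool.Agent.TH60.FP Pool.Agent.Y34.HB Pool.Agent.Y34.EL
open Pool.Agent.Q216.PD

namespace Pool.Agent.Q129.PD

/-- one isometry with a bounded set of fixed points -/
theorem uni_one {X : Type u} [MetricSpace X] [ProperSpace X] (hcn : CN X) {G : Type v} [Group G]
    [MulAction G X] [IsIsometricSMul G X] (w : G) (z : X) (hz : w • z = z) (R₀ : ℝ)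
    (hR : ∀ x y : X, w • x = x → w • y = y → dist x y ≤ R₀) :
    ∃ l C : ℝ, 0 < l ∧ 0 ≤ C ∧ ∀ y : X, l * dist y z ≤ dist y (w • y) + C := by
  obtain ⟨hst1, -, -⟩ := Pool.Agent.Y93.EL.t1 X hcn
  obtain ⟨hcm, -⟩ := Pool.Agent.Y93.EL.t2 Pool.Agent.Y93.EL.t1 X hcn
  obtain ⟨R, hR1, hR2⟩ : ∃ R : ℝ, 1 ≤ R ∧ R₀ < R :=
    ⟨max R₀ 0 + 1, by have := le_max_right R₀ 0; linarith, by have := le_max_left R₀ 0; linarith⟩
  have hR0 : 0 < R := by linarith
  rcases (sphere z R).eq_empty_or_nonempty with he | hne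
  · refine ⟨1, R, one_pos, hR0.le, fun y => ?_⟩
    have h1 : dist z y < R := by
      by_contra h
      rw [not_lt] at h
      obtain ⟨y', hy', -⟩ := hst1 z y R hR0.le h
      have : y' ∈ sphere z R := by
        rw [mem_sphere, dist_comm]
        exact hy'
      rw [he] at this
      exact this
    rw [dist_comm] at h1
    have h2 : 0 ≤ dist y (w • y) := dist_nonneg
    linarith
  · have hc : Continuous fun y : X => dist y (w • y) :=
      continuous_id.dist (isometry_smul X w).continuous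
    obtain ⟨y0, hy0, hmin⟩ := (isCompact_sphere z R).exists_isMinOn hne hc.continuousOn
    have hm : ∀ y ∈ sphere z R, dist y0 (w • y0) ≤ dist y (w • y) := fun y hy => hmin hy
    have hpos : 0 < dist y0 (w • y0) := by
      rcases (dist_nonneg (x := y0) (y := w • y0)).eq_or_lt with h | h
      · exfalso
        have h1 : w • y0 = y0 := (dist_eq_zero.1 h.symm).symm
        have h2 := hR y0 z h1 hz
        rw [mem_sphere] at hy0
        linarith
      · exact h
    obtain ⟨m, hmdef⟩ : ∃ m : ℝ, m = dist y0 (w • y0) := ⟨_, rfl⟩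
    rw [← hmdef] at hm hpos
    refine ⟨m / R, m, by positivity, hpos.le, fun y => ?_⟩
    rcases lt_or_ge (dist z y) R with h | h
    · have h1 : m / R * dist y z ≤ m := by
        rw [dist_comm y z, div_mul_eq_mul_div, div_le_iff₀ hR0]
        exact mul_le_mul_of_nonneg_left h.le hpos.le
      have h2 : 0 ≤ dist y (w • y) := dist_nonneg
      linarith
    · obtain ⟨y', hy1, hy2⟩ := hst1 z y R hR0.le h
      have hdz : dist z (w • y) = dist z y := by
        conv_lhs => rw [← hz]
        exact dist_smul w z y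
      have hon2 : On z (w • y) R (w • y') := by
        refine ⟨?_, ?_⟩
        · rw [← hy1]
          conv_lhs => rw [← hz]
          exact dist_smul w z y'
        · rw [dist_smul, hdz]
          exact hy2
      have h3 := hcm z y (w • y) R y' (w • y') ⟨hy1, hy2⟩ hon2
      rw [hdz, sub_self] at h3
      have h4 : m ≤ dist y' (w • y') := hm y' (by rw [mem_sphere, dist_comm]; exact hy1)
      have h5 : (m * dist z y) ^ 2 ≤ (R * dist y (w • y)) ^ 2 := by
        calc (m * dist z y) ^ 2 = m ^ 2 * (dist z y * dist z y) := by ring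
          _ ≤ dist y' (w • y') ^ 2 * (dist z y * dist z y) := by
              apply mul_le_mul_of_nonneg_right _ (by positivity)
              exact pow_le_pow_left₀ hpos.le h4 2
          _ ≤ R ^ 2 * (dist y (w • y) ^ 2 - 0 ^ 2) := h3
          _ = (R * dist y (w • y)) ^ 2 := by ring
      have h6 : m * dist z y ≤ R * dist y (w • y) :=
        le_of_sq_le_sq h5 (by positivity)
      have h7 : m / R * dist y z ≤ dist y (w • y) := by
        rw [dist_comm y z, div_mul_eq_mul_div, div_le_iff₀ hR0]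
        linarith
      linarith

/-- finitely many isometries -/
theorem uni_fin {X : Type u} [MetricSpace X] {G : Type v} [Group G]
    [MulAction G X] (P : G → Prop)
    (h : ∀ w : G, P w → ∃ z : X, w • z = z ∧ ∃ l C : ℝ, 0 < l ∧ 0 ≤ C ∧
      ∀ y : X, l * dist y z ≤ dist y (w • y) + C) (F : Set G) (hF : F.Finite) :
    ∃ l C : ℝ, 0 < l ∧ 0 ≤ C ∧ ∀ w ∈ F, P w → ∃ z : X, w • z = z ∧
      ∀ y : X, l * dist y z ≤ dist y (w • y) + C := by
  induction F, hF using Set.Finite.induction_on with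
  | empty => exact ⟨1, 0, one_pos, le_rfl, fun w hw => absurd hw (by simp)⟩
  | @insert a s has hs ih =>
    obtain ⟨l, C, hl, hC, hall⟩ := ih
    by_cases hP : P a
    · obtain ⟨z, hz, l1, C1, hl1, hC1, h1⟩ := h a hP
      refine ⟨min l l1, max C C1, lt_min hl hl1, le_max_of_le_left hC, ?_⟩
      intro w hw hPw
      rcases Set.mem_insert_iff.1 hw with rfl | hw
      · refine ⟨z, hz, fun y => ?_⟩
        have e1 := mul_le_mul_of_nonneg_right (min_le_right l l1) (dist_nonneg (x := y) (y := z))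
        have e2 := h1 y
        have e3 := le_max_right C C1
        linarith
      · obtain ⟨z', hz', h2⟩ := hall w hw hPw
        refine ⟨z', hz', fun y => ?_⟩
        have e1 := mul_le_mul_of_nonneg_right (min_le_left l l1) (dist_nonneg (x := y) (y := z'))
        have e2 := h2 y
        have e3 := le_max_left C C1
        linarith
    · refine ⟨l, C, hl, hC, ?_⟩
      intro w hw hPw
      rcases Set.mem_insert_iff.1 hw with rfl | hw
      · exact absurd hPw hP
      · exact hall w hw hPw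

theorem t_uni : S_UNI.{u, v} := by
  intro X₁ X₂ _ _ G _ _ _ hG hyp L
  have := hG.proper₁
  have := hG.isom₁
  have := hG.isom₂
  have := hG.geo.proper
  have := hG.geo.isom
  have := hG.geo.disc
  obtain ⟨K, hK, hcov⟩ := hG.geo.cc
  obtain ⟨M, hM⟩ : ∃ M : ℝ, M = max L 0 := ⟨_, rfl⟩
  have hfin : {k : G | ∃ z ∈ K, dist z (k • z) ≤ M}.Finite := by
    have h1 := ProperlyDiscontinuousSMul.finite_disjoint_inter_image (Γ := G) hK
      (hK.cthickening (r := M))
    refine h1.subset ?_
    rintro k ⟨z, hz, hzk⟩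
    refine ⟨k • z, ⟨z, hz, rfl⟩, ?_⟩
    refine mem_cthickening_of_dist_le (k • z) z M K hz ?_
    rw [dist_comm]
    exact hzk
  obtain ⟨l, C, hl, hC, hall⟩ := uni_fin (X := X₁) (G := G) (fun w => ∀ x : X₂, w • x ≠ x)
    (fun w hw => by
      obtain ⟨⟨z, hz⟩, R, hR⟩ := hyp w hw
      exact ⟨z, hz, uni_one hG.cn₁ w z hz R hR⟩) _ hfin
  refine ⟨l, C, hl, ?_⟩
  rintro w hw ⟨y2, hy2⟩
  obtain ⟨⟨x1, hx1⟩, -⟩ := hyp w hw
  obtain ⟨g, hg⟩ := hcov (⟨x1, y2⟩ : Pr X₁ X₂)
  have hd : dist (g • (⟨x1, y2⟩ : Pr X₁ X₂)) ((g * w * g⁻¹) • g • (⟨x1, y2⟩ : Pr X₁ X₂)) ≤ M := by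
    rw [mul_smul, mul_smul, inv_smul_smul, dist_smul]
    have e1 := le_add (⟨x1, y2⟩ : Pr X₁ X₂) (w • (⟨x1, y2⟩ : Pr X₁ X₂))
    rw [smul_fst, smul_snd] at e1
    simp only at e1
    rw [hx1, dist_self, zero_add] at e1
    have e2 := le_max_left L 0
    linarith
  obtain ⟨z, hz, hzy⟩ := hall (g * w * g⁻¹) ⟨_, hg, hd⟩ (fun x hx => hw (g⁻¹ • x) (by
    have h2 := congrArg (fun t => g⁻¹ • t) hx
    rw [mul_smul, mul_smul, inv_smul_smul] at h2
    exact h2))
  refine ⟨g⁻¹ • z, ?_, ?_⟩
  · have h2 := congrArg (fun t => g⁻¹ • t) hz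
    rw [mul_smul, mul_smul, inv_smul_smul] at h2
    exact h2
  · intro y
    have h3 := hzy (g • y)
    rw [mul_smul, mul_smul, inv_smul_smul, dist_smul] at h3
    have h4 : dist (g • y) z = dist y (g⁻¹ • z) := by
      rw [← dist_smul g y (g⁻¹ • z), smul_inv_smul]
    rw [h4] at h3
    exact h3

end Pool.Agent.Q129.PD
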